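import Pool.Agent.NPG.StmtsD

/-!
# Squad NPY, row ZZS: stability gives a surjection
-/

set_option autoImplicit false

open Set Topology

noncomputable section

namespace Pool.Agent.NPY.H29

open Pool.Agent.LSG Pool.Agent.NPY

/-- restriction along a continuous map -/
def res {X Y : Type} [TopologicalSpace X] [TopologicalSpace Y] (e : C(Y, X)) :
    C(X, ℝ) →ₗ[ℝ] C(Y, ℝ) where
  toFun f := f.comp e
  map_add' _ _ := rfl
  map_smul' _ _ := rfl

theorem res_pcont {X Y : Type} [TopologicalSpace X] [TopologicalSpace Y] (e : C(Y, X)) :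
    PCont (fun f : C(X, ℝ) => res e f) := by
  refine continuous_pi fun y => ?_
  exact (continuous_apply (e y)).comp continuous_subtype_val

theorem pcont_comp {X Y Z : Type} [TopologicalSpace X] [TopologicalSpace Y] [TopologicalSpace Z]
    {T : C(X, ℝ) → C(Y, ℝ)} {U : C(Y, ℝ) → C(Z, ℝ)} (hT : PCont T) (hU : PCont U) :
    PCont (fun f => U (T f)) := by
  have h : Continuous fun f : {g : X → ℝ // Continuous g} =>
      (⟨⇑(T ⟨f.1, f.2⟩), (T ⟨f.1, f.2⟩).continuous⟩ : {g : Y → ℝ // Continuous g}) :=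
    Continuous.subtype_mk hT _
  exact Continuous.comp (g := fun f : {g : Y → ℝ // Continuous g} => ⇑(U ⟨f.1, f.2⟩)) hU h

/-- the linear equivalence given by a homeomorphism -/
def hom {X Y : Type} [TopologicalSpace X] [TopologicalSpace Y] (e : X ≃ₜ Y) :
    C(X, ℝ) ≃ₗ[ℝ] C(Y, ℝ) where
  toFun f := f.comp ⟨e.symm, e.symm.continuous⟩
  invFun f := f.comp ⟨e, e.continuous⟩
  map_add' _ _ := rfl
  map_smul' _ _ := rfl
  left_inv f := by
    ext x
    exact congrArg f (e.symm_apply_apply x)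
  right_inv f := by
    ext x
    exact congrArg f (e.apply_symm_apply x)

theorem leq_homeo {X Y Z : Type} [TopologicalSpace X] [TopologicalSpace Y] [TopologicalSpace Z]
    (e : Y ≃ₜ Z) (h : LEq X Y) : LEq X Z := by
  obtain ⟨T, h1, h2⟩ := h
  refine ⟨T.trans (hom e), ?_, ?_⟩
  · exact pcont_comp (T := fun f => T f)
      (U := fun f => res ⟨e.symm, e.symm.continuous⟩ f) h1 (res_pcont _)
  · exact pcont_comp (T := fun f => res ⟨e, e.continuous⟩ f)
      (U := fun f => T.symm f) (res_pcont _) h2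

/-- ZZS -/
theorem zzs : ZzsStmt := by
  classical
  intro Z _
  refine ⟨fun hst => ?_, fun hle => ?_, fun hS => ?_⟩
  · have hemb : LEmb (univ : Set Z) := by
      refine ⟨res ⟨fun z => ⟨z, mem_univ z⟩, by fun_prop⟩, res_pcont _, fun f a => rfl⟩
    exact leq_homeo (Homeomorph.sumCongr (Homeomorph.refl Z) (Homeomorph.Set.univ Z))
      (hst univ hemb)
  · obtain ⟨T, h1, -⟩ := hle
    exact ⟨T.toLinearMap, h1, T.surjective⟩
  · obtain ⟨T, -, h2⟩ := hS
    obtain ⟨e, he1, he2⟩ : ∃ e : C(Z ⊕ Z, Z × OnePoint ℕ),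
        (∀ z, e (Sum.inl z) = (z, ((0 : ℕ) : OnePoint ℕ))) ∧
        ∀ z, e (Sum.inr z) = (z, ((1 : ℕ) : OnePoint ℕ)) := by
      refine ⟨⟨Sum.elim (fun z => (z, ((0 : ℕ) : OnePoint ℕ))) fun z => (z, ((1 : ℕ) : OnePoint ℕ)),
        ?_⟩, fun z => rfl, fun z => rfl⟩
      exact Continuous.sumElim (by fun_prop) (by fun_prop)
    refine ⟨(res e).comp T.symm.toLinearMap, pcont_comp (T := fun f => T.symm f)
      (U := fun f => res e f) h2 (res_pcont e), fun g => ?_⟩
    have hcl : IsClopen {p : Z × OnePoint ℕ | p.2 = ((0 : ℕ) : OnePoint ℕ)} := by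
      have h0 : IsClopen ({((0 : ℕ) : OnePoint ℕ)} : Set (OnePoint ℕ)) := by
        refine ⟨isClosed_singleton, ?_⟩
        have := OnePoint.isOpenEmbedding_coe.isOpenMap _ (isOpen_discrete ({0} : Set ℕ))
        rwa [Set.image_singleton] at this
      exact h0.preimage continuous_snd
    obtain ⟨r, hr⟩ : ∃ r : C(Z × OnePoint ℕ, Z ⊕ Z), ∀ p : Z × OnePoint ℕ,
        r p = if p.2 = ((0 : ℕ) : OnePoint ℕ) then Sum.inl p.1 else Sum.inr p.1 := by
      refine ⟨⟨fun p => if p.2 = ((0 : ℕ) : OnePoint ℕ) then Sum.inl p.1 else Sum.inr p.1, ?_⟩,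
        fun p => rfl⟩
      refine continuous_if (fun a ha => ?_) ?_ ?_
      · rw [hcl.frontier_eq] at ha
        exact absurd ha (notMem_empty a)
      · exact (continuous_inl.comp continuous_fst).continuousOn
      · exact (continuous_inr.comp continuous_fst).continuousOn
    refine ⟨T (g.comp r), ?_⟩
    ext w
    show (T.symm (T (g.comp r))) (e w) = g w
    rw [T.symm_apply_apply]
    show g (r (e w)) = g w
    congr 1
    rcases w with z | z
    · rw [he1, hr, if_pos rfl]
    · rw [he2, hr, if_neg]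
      intro h
      exact one_ne_zero (OnePoint.coe_injective h)

end Pool.Agent.NPY.H29
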